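import Pool.Agent.ZPK.StmtsG
import Pool.Agent.Helper10_ZPK.CDI

/-! Squad ZPK, row CFA: counting the failures of `Gen.zero`, `Gen.infty`. -/

set_option autoImplicit false

namespace Pool.Agent.ZPK.H68

open Pool.Agent.ZPT Pool.Agent.ZP3 Pool.Agent.ZPK

noncomputable section

theorem rs_union1 {ι : Type} [Fintype ι] (p n m B : ℕ) (E : Set (Fin n → Fin m → ℤ))
    (F : ι → Set (Fin n → Fin m → ℤ)) (hE : E ⊆ ⋃ i, F i)
    (hF : ∀ i, (Rs p (F i)).ncard * p ≤ B) :
    (Rs p E).ncard * p ≤ Fintype.card ι * B := by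
  have h1 : Rs p E ⊆ ⋃ i, Rs p (F i) := by
    rintro x ⟨hx, a, ha, hxa⟩
    obtain ⟨i, hi⟩ := Set.mem_iUnion.mp (hE ha)
    exact Set.mem_iUnion.mpr ⟨i, hx, a, hi, hxa⟩
  have h2 : (Rs p E).ncard ≤ ∑ i, (Rs p (F i)).ncard :=
    (Set.ncard_le_ncard h1 (Set.finite_iUnion fun i => H10.rs_finite p n m (F i))).trans
      (Set.ncard_iUnion_le_of_fintype _)
  calc (Rs p E).ncard * p ≤ (∑ i, (Rs p (F i)).ncard) * p :=
        Nat.mul_le_mul_right _ h2
    _ = ∑ i, (Rs p (F i)).ncard * p := Finset.sum_mul _ _ _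
    _ ≤ ∑ _i : ι, B := Finset.sum_le_sum fun i _ => hF i
    _ = Fintype.card ι * B := by
      rw [Finset.sum_const, smul_eq_mul, Finset.card_univ]

theorem cfa_gen (cfg : CfgStmt) {p : ℕ} (hp : p.Prime) (h11 : 11 ≤ p) {K : Type} [NormedField K]
    [CharZero K] [IsUltrametricDist K] (hE : Ext p K) {n m : ℕ} {β : Fin m → K} (hβ : Bas β)
    (e : Fin n → ℕ) (G : Set (Fin n → Fin m → ℤ)) (lam : (Fin n → Fin m → ℤ) → Fin n → K)
    (h1 : ∀ a ∈ G, ∀ i, 1 ≤ e i → ‖lam a i‖ = 1)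
    (h2 : ∀ i, 1 ≤ e i → ∀ a ∈ G, ∀ a' ∈ G,
      ‖lam a i - lam a' i‖ = ‖sv β (a i) - sv β (a' i)‖) :
    (Rs p {a | a ∈ G ∧ ¬ ∀ d, 1 ≤ d → FI {i | e i = d} (lam a)}).ncard * p ≤
      n * 25 ^ n * p ^ (2 * (n * m)) := by
  have h := rs_union1 p n m (25 ^ n * p ^ (2 * (n * m)))
    {a | a ∈ G ∧ ¬ ∀ d, 1 ≤ d → FI {i | e i = d} (lam a)}
    (fun i₀ : Fin n => {a | 1 ≤ e i₀ ∧ a ∈ G ∧ ¬ FI {i | e i = e i₀} (lam a)}) ?_ ?_
  · rw [Fintype.card_fin, ← mul_assoc] at h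
    exact h
  · rintro a ⟨haG, ha⟩
    rw [not_forall] at ha
    obtain ⟨d, hd⟩ := ha
    rw [Classical.not_imp] at hd
    obtain ⟨hd1, hd2⟩ := hd
    by_cases hex : ∃ i₀, e i₀ = d
    · obtain ⟨i₀, hi₀⟩ := hex
      subst hi₀
      exact Set.mem_iUnion.mpr ⟨i₀, hd1, haG, hd2⟩
    · exfalso
      apply hd2
      intro c d' hcd hne
      obtain ⟨i, j, hij⟩ := hne
      have hi := (hcd i).2.2 (fun h => hex ⟨i, h⟩)
      have hj := (hcd j).2.2 (fun h => hex ⟨j, h⟩)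
      rw [hi.1, hj.1, zero_mul, zero_mul] at hij
      exact absurd rfl hij
  · intro i₀
    by_cases hi₀ : 1 ≤ e i₀
    · have hset : {a : Fin n → Fin m → ℤ | 1 ≤ e i₀ ∧ a ∈ G ∧ ¬ FI {i | e i = e i₀} (lam a)} =
          {a | a ∈ G ∧ ¬ FI {i | e i = e i₀} (lam a)} := by
        ext a
        exact ⟨fun h => h.2, fun h => ⟨hi₀, h⟩⟩
      rw [hset]
      refine cfg p hp h11 K hE n m β hβ {i | e i = e i₀} none G lam ?_ ?_ ?_
      · intro a ha i hi
        have hi' : e i = e i₀ := hi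
        exact (h1 a ha i (by omega)).le
      · intro a _ i _ hv
        exact absurd hv (by simp)
      · intro i hi _ a ha a' ha' hk
        have hi' : e i = e i₀ := hi
        refine ⟨fun k hk1 hk2 => ?_, fun h3 => ?_⟩
        · have hk1' : e k = e i₀ := hk1
          rw [h2 k (by omega) a ha a' ha']
          exact H10.sv_close hp hE β hβ.1 _ _ (hk k hk2)
        · rw [h2 i (by omega) a ha a' ha'] at h3
          exact h3
    · have hset : {a : Fin n → Fin m → ℤ | 1 ≤ e i₀ ∧ a ∈ G ∧ ¬ FI {i | e i = e i₀} (lam a)} =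
          ∅ := by
        ext a
        exact ⟨fun h => absurd h.1 hi₀, fun h => h.elim⟩
      have hR : Rs p (∅ : Set (Fin n → Fin m → ℤ)) = ∅ := by
        ext x
        constructor
        · rintro ⟨_, a, ha, _⟩
          exact ha
        · intro h
          exact h.elim
      rw [hset, hR, Set.ncard_empty, zero_mul]
      exact Nat.zero_le _

theorem cfa (cfg : CfgStmt) : CfaStmt := by
  intro p hp h11 K _ _ _ hE n m β hβ ν hν e A hA
  have hg : ∀ a : Fin n → Fin m → ℤ, ∀ i, ‖gv β ν a i‖ = ‖sv β (a i)‖ := by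
    intro a i
    unfold gv
    rw [norm_mul, hν, mul_one]
  have hgd : ∀ a a' : Fin n → Fin m → ℤ, ∀ i, ‖gv β ν a i - gv β ν a' i‖ =
      ‖sv β (a i) - sv β (a' i)‖ := by
    intro a a' i
    unfold gv
    rw [← sub_mul, norm_mul, hν, mul_one]
  constructor
  · refine cfa_gen cfg hp h11 hE hβ e {a | ∀ i, ‖sv β (a i)‖ = 1}
      (fun a i => A i 0 / gv β ν a i) ?_ ?_
    · intro a ha i hi
      rw [norm_div, hA i hi, hg, ha i, div_one]
    · intro i hi a ha a' ha'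
      have g1 : ‖gv β ν a i‖ = 1 := by rw [hg, ha i]
      have g2 : ‖gv β ν a' i‖ = 1 := by rw [hg, ha' i]
      have n1 : gv β ν a i ≠ 0 := by
        intro h
        rw [h, norm_zero] at g1
        exact zero_ne_one g1
      have n2 : gv β ν a' i ≠ 0 := by
        intro h
        rw [h, norm_zero] at g2
        exact zero_ne_one g2
      have e1 : A i 0 / gv β ν a i - A i 0 / gv β ν a' i =
          A i 0 * (gv β ν a' i - gv β ν a i) / (gv β ν a i * gv β ν a' i) := by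
        field_simp
      rw [e1, norm_div, norm_mul, norm_mul, g1, g2, hA i hi, one_mul, one_mul, div_one, norm_sub_rev,
        hgd]
  · refine cfa_gen cfg hp h11 hE hβ e {a | ∀ i, ‖sv β (a i)‖ = 1}
      (fun a i => gv β ν a i / A i 0) ?_ ?_
    · intro a ha i hi
      rw [norm_div, hA i hi, hg, ha i, div_one]
    · intro i hi a ha a' ha'
      rw [← sub_div, norm_div, hA i hi, div_one, hgd]

end

end Pool.Agent.ZPK.H68
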