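import Pool.Agent.ZPK.StmtsG
import Pool.Agent.ZPK.StmtsL
import Pool.Agent.Helper10_ZPK.CDI
import Pool.Agent.Helper16_ZPK.CTB

/-! Squad ZPK, row CGQ: counting the failures of `GenQ`. -/

set_option autoImplicit false

namespace Pool.Agent.ZPK.H68

open Pool.Agent.ZPT Pool.Agent.ZP3 Pool.Agent.ZPK

noncomputable section

theorem add_le' {K : Type} [NormedField K] [IsUltrametricDist K] {x y : K} {C : ℝ} (hx : ‖x‖ ≤ C)
    (hy : ‖y‖ ≤ C) : ‖x + y‖ ≤ C :=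
  (IsUltrametricDist.norm_add_le_max x y).trans (max_le hx hy)

theorem sub_le' {K : Type} [NormedField K] [IsUltrametricDist K] {x y : K} {C : ℝ} (hx : ‖x‖ ≤ C)
    (hy : ‖y‖ ≤ C) : ‖x - y‖ ≤ C := by
  rw [sub_eq_add_neg]
  exact add_le' hx (by rw [norm_neg]; exact hy)

theorem add_lt' {K : Type} [NormedField K] [IsUltrametricDist K] {x y : K} {C : ℝ} (hx : ‖x‖ < C)
    (hy : ‖y‖ < C) : ‖x + y‖ < C :=
  (IsUltrametricDist.norm_add_le_max x y).trans_lt (max_lt hx hy)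

theorem sub_lt' {K : Type} [NormedField K] [IsUltrametricDist K] {x y : K} {C : ℝ} (hx : ‖x‖ < C)
    (hy : ‖y‖ < C) : ‖x - y‖ < C := by
  rw [sub_eq_add_neg]
  exact add_lt' hx (by rw [norm_neg]; exact hy)

/-- rows congruent modulo `p` -/
theorem sv_cong1 {p : ℕ} (hp : p.Prime) {K : Type} [NormedField K] [CharZero K]
    [IsUltrametricDist K] (hE : Ext p K) {m : ℕ} {β : Fin m → K} (hβ : ∀ r, ‖β r‖ ≤ 1)
    (x y : Fin m → ℤ) (h : ∀ r, (p : ℤ) ∣ x r - y r) : ‖sv β x - sv β y‖ ≤ (p : ℝ)⁻¹ := by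
  have e : sv β x - sv β y = ∑ r, ((x r - y r : ℤ) : K) * β r := by
    unfold sv
    rw [← Finset.sum_sub_distrib]
    refine Finset.sum_congr rfl fun r _ => ?_
    push_cast
    ring
  rw [e]
  refine IsUltrametricDist.norm_sum_le_of_forall_le_of_nonneg (by positivity) fun r _ => ?_
  obtain ⟨w, hw⟩ := h r
  rw [hw]
  push_cast
  rw [norm_mul, norm_mul, H16.ctb_norm_p hp hE]
  have h1 := H16.ctb_norm_le_one hp hE (K := K) w
  have h2 := hβ r
  have h3 : (0 : ℝ) ≤ (p : ℝ)⁻¹ := by positivity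
  have h4 : ‖(w : K)‖ * ‖β r‖ ≤ 1 := mul_le_one₀ h1 (norm_nonneg _) h2
  calc (p : ℝ)⁻¹ * ‖(w : K)‖ * ‖β r‖ = (p : ℝ)⁻¹ * (‖(w : K)‖ * ‖β r‖) := by ring
    _ ≤ (p : ℝ)⁻¹ * 1 := mul_le_mul_of_nonneg_left h4 h3
    _ = (p : ℝ)⁻¹ := mul_one _

theorem cgq (ctb : CtbStmt) (urr : URRStmt) (thb : THBStmt) (lgb : LgbStmt) : CgqStmt := by
  classical
  intro p hp h5 K _ _ _ hE Log hLog n m β hβ hUr ν hν u₁ e A hu₁ hA0
  obtain ⟨u1, u2, u3, u4, u5⟩ := urr p hp K hE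
  obtain ⟨-, th0, th1, th3, -⟩ := thb p hp h5
  obtain ⟨-, l2, -, l4, -, l6, -⟩ := lgb p hp h5 K hE Log hLog
  have hp1 : (1 : ℝ) < p := by exact_mod_cast hp.one_lt
  have hpi0 : (0 : ℝ) < (p : ℝ)⁻¹ := by positivity
  have hpi1 : (p : ℝ)⁻¹ < 1 := inv_lt_one_of_one_lt₀ hp1
  have hpn := H16.ctb_norm_p hp hE (K := K)
  have hp0 : (p : K) ≠ 0 := by
    intro h
    rw [h, norm_zero] at hpn
    exact hpi0.ne hpn
  have hpth : (p : ℝ)⁻¹ < th p := by
    have h1 : th p ^ 3 ≤ th p := by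
      have := pow_le_one₀ (n := 2) th0.le th1.le
      nlinarith
    linarith
  -- the numbers `N j`
  set NN : (Fin n → Fin m → ℤ) → Fin n → K := fun a j => gv β ν a j + p * (A j 0 - u₁) with hNN
  have hsmall : ∀ j, ‖(p : K) * (A j 0 - u₁)‖ ≤ (p : ℝ)⁻¹ := by
    intro j
    rw [norm_mul, hpn]
    exact mul_le_of_le_one_right hpi0.le (sub_le' (hA0 j) hu₁)
  have hUrsmall : ∀ x : K, ‖x‖ ≤ (p : ℝ)⁻¹ → Ur p x := by
    intro x hx
    have hx1 : ‖x‖ ≤ 1 := hx.trans hpi1.le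
    refine ⟨hx1, 1, le_refl _, sub_le' ?_ hx⟩
    rw [norm_pow]
    refine le_trans ?_ hx
    exact pow_le_of_le_one (norm_nonneg _) hx1 (by rw [pow_one]; exact hp.ne_zero)
  have hUrsv : ∀ x : Fin m → ℤ, Ur p (sv β x) := by
    intro x
    unfold sv
    refine Finset.sum_induction _ (fun y => Ur p y) (fun a b ha hb => (u1 a b ha hb).1) ?_ ?_
    · have := u3 0
      rwa [Int.cast_zero] at this
    · intro r _
      exact (u1 _ _ (u3 (x r)) (hUr r)).2.1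
  have hgn : ∀ a : Fin n → Fin m → ℤ, ∀ i, ‖gv β ν a i‖ = ‖sv β (a i)‖ := by
    intro a i
    unfold gv
    rw [norm_mul, hν.2, mul_one]
  have hgd : ∀ a a' : Fin n → Fin m → ℤ, ∀ i, ‖gv β ν a i - gv β ν a' i‖ =
      ‖sv β (a i) - sv β (a' i)‖ := by
    intro a a' i
    unfold gv
    rw [← sub_mul, norm_mul, hν.2, mul_one]
  have hNn : ∀ a : Fin n → Fin m → ℤ, (∀ i, ‖sv β (a i)‖ = 1) → ∀ j, ‖NN a j‖ = 1 := by
    intro a ha j
    have h1 : ‖gv β ν a j‖ = 1 := by rw [hgn, ha j]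
    have h2 : ‖(p : K) * (A j 0 - u₁)‖ < ‖gv β ν a j‖ := by
      rw [h1]
      exact (hsmall j).trans_lt hpi1
    show ‖gv β ν a j + p * (A j 0 - u₁)‖ = 1
    rw [IsUltrametricDist.norm_add_eq_max_of_norm_ne_norm h2.ne', max_eq_left h2.le, h1]
  have hNU : ∀ a : Fin n → Fin m → ℤ, (∀ i, ‖sv β (a i)‖ = 1) → ∀ j, Uu p (NN a j) := by
    intro a ha j
    refine ⟨(u1 _ _ ?_ (hUrsmall _ (hsmall j))).1, hNn a ha j⟩
    unfold gv
    exact (u1 _ _ (hUrsv _) hν.1).2.1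
  have hNd : ∀ a a' : Fin n → Fin m → ℤ, ∀ j, NN a j - NN a' j = gv β ν a j - gv β ν a' j := by
    intro a a' j
    rw [hNN]
    ring
  -- the logarithm of a quotient
  have hlogd : ∀ a a' : Fin n → Fin m → ℤ, (∀ i, ‖sv β (a i)‖ = 1) → (∀ i, ‖sv β (a' i)‖ = 1) →
      ∀ j, ‖sv β (a j) - sv β (a' j)‖ ≤ (p : ℝ)⁻¹ →
        ‖Log (NN a j) - Log (NN a' j)‖ = ‖sv β (a j) - sv β (a' j)‖ := by
    intro a a' ha ha' j hj
    have g1 := hNn a ha j
    have g2 := hNn a' ha' j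
    have n1 : NN a j ≠ 0 := by
      intro h
      rw [h, norm_zero] at g1
      exact zero_ne_one g1
    have n2 : NN a' j ≠ 0 := by
      intro h
      rw [h, norm_zero] at g2
      exact zero_ne_one g2
    have hx : NN a j / NN a' j = 1 + (NN a j - NN a' j) / NN a' j := by
      field_simp
      ring
    have hxn : ‖(NN a j - NN a' j) / NN a' j‖ = ‖sv β (a j) - sv β (a' j)‖ := by
      rw [norm_div, g2, div_one, hNd, hgd]
    rw [← l2 _ _ n1 n2, hx, l4 _ (by rw [hxn]; exact hj.trans_lt hpth), hxn]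
  set Θ : (Fin n → Fin m → ℤ) → Fin n → Fin n → K := fun a j l =>
    (Log (NN a j) - Log (NN a l)) / p with hΘ
  have hΘ1 : ∀ a : Fin n → Fin m → ℤ, (∀ i, ‖sv β (a i)‖ = 1) → ∀ j l, ‖Θ a j l‖ ≤ 1 := by
    intro a ha j l
    show ‖(Log (NN a j) - Log (NN a l)) / p‖ ≤ 1
    rw [norm_div, hpn, div_le_one hpi0]
    exact sub_le' (l6 _ (hNU a ha j)) (l6 _ (hNU a ha l))
  -- the exceptional values
  set y0 : Fin n → Fin n → K := fun i k =>
    if h : ∃ y : K, ‖y‖ = 1 ∧ ∃ μ : ℕ, Log (A i 0) / (e i : K) - Log (A k 0) / (e k : K) =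
      (p : K) ^ μ * y then h.choose else 0 with hy0
  have hy0u : ∀ (i k : Fin n) (μ : ℕ) (y : K), ‖y‖ = 1 →
      Log (A i 0) / (e i : K) - Log (A k 0) / (e k : K) = (p : K) ^ μ * y → y = y0 i k := by
    intro i k μ y hy hyq
    have hex : ∃ y : K, ‖y‖ = 1 ∧ ∃ μ : ℕ, Log (A i 0) / (e i : K) - Log (A k 0) / (e k : K) =
      (p : K) ^ μ * y := ⟨y, hy, μ, hyq⟩
    have h1 : y0 i k = hex.choose := by
      rw [hy0]
      exact dif_pos hex
    obtain ⟨h2, μ', h3⟩ := hex.choose_spec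
    rw [h1]
    generalize hex.choose = y' at h2 h3
    rw [hyq] at h3
    have h4 := congrArg norm h3
    rw [norm_mul, norm_mul, norm_pow, norm_pow, hpn, hy, h2, mul_one, mul_one] at h4
    have h5 : μ = μ' := pow_right_injective₀ hpi0 hpi1.ne h4
    subst h5
    exact mul_left_cancel₀ (pow_ne_zero _ hp0) h3
  -- one exceptional set
  have hone : ∀ (j l : Fin n) (w : K), (Rs p {a : Fin n → Fin m → ℤ | j ≠ l ∧
      (∀ i, ‖sv β (a i)‖ = 1) ∧ ‖Θ a j l - w‖ < 1}).ncard * p ^ 2 ≤ p ^ (2 * (n * m)) := by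
    intro j l w
    refine ctb p hp K hE n m β hβ j _ ?_
    rintro a ⟨hjl, ha, haw⟩ a' ⟨-, ha', haw'⟩ hk hj
    have hl := H16.ctb_sv hp hE hβ.1 (a l) (a' l) (hk l hjl.symm)
    have hj1 := sv_cong1 hp hE hβ.1 (a j) (a' j) hj
    have e1 := hlogd a a' ha ha' l hl.le
    have e2 := hlogd a a' ha ha' j hj1
    have h1 : ‖Θ a j l - Θ a' j l‖ < 1 := by
      have h2 : Θ a j l - Θ a' j l = (Θ a j l - w) - (Θ a' j l - w) := by ring
      rw [h2]
      exact sub_lt' haw haw'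
    have h3 : Log (NN a j) - Log (NN a' j) =
        p * (Θ a j l - Θ a' j l) + (Log (NN a l) - Log (NN a' l)) := by
      show _ = p * ((Log (NN a j) - Log (NN a l)) / p - (Log (NN a' j) - Log (NN a' l)) / p) + _
      field_simp
      ring
    rw [← e2, h3]
    refine add_lt' ?_ (by rw [e1]; exact hl)
    rw [norm_mul, hpn]
    exact mul_lt_of_lt_one_right hpi0 h1
  have h := H10.rs_union p n m (p ^ (2 * (n * m)))
    {a : Fin n → Fin m → ℤ | (∀ i, ‖sv β (a i)‖ = 1) ∧ ¬ GenQ p Log u₁ e A (gv β ν a)}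
    (fun q : (Fin n × Fin n) ⊕ ((Fin n × Fin n) × (Fin n × Fin n)) × Fin p =>
      Sum.elim (fun q : Fin n × Fin n => {a : Fin n → Fin m → ℤ | q.1 ≠ q.2 ∧
        (∀ i, ‖sv β (a i)‖ = 1) ∧ ‖Θ a q.1 q.2 - 0‖ < 1})
      (fun q : ((Fin n × Fin n) × (Fin n × Fin n)) × Fin p => {a : Fin n → Fin m → ℤ |
        q.1.1.1 ≠ q.1.1.2 ∧ (∀ i, ‖sv β (a i)‖ = 1) ∧
        ‖Θ a q.1.1.1 q.1.1.2 - ((q.2 : ℕ) : K) * y0 q.1.2.1 q.1.2.2‖ < 1}) q) ?_ ?_
  · rw [Fintype.card_sum, Fintype.card_prod, Fintype.card_prod, Fintype.card_prod,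
      Fintype.card_prod, Fintype.card_fin, Fintype.card_fin] at h
    have h1 : (n * n + n * n * (n * n) * p) * p ^ (2 * (n * m)) ≤
        ((n ^ 2 + n ^ 4) * p ^ (2 * (n * m))) * p := by
      have h2 : n * n + n * n * (n * n) * p ≤ (n ^ 2 + n ^ 4) * p := by
        have h3 : n * n ≤ n * n * p := Nat.le_mul_of_pos_right _ hp.pos
        nlinarith
      calc _ ≤ ((n ^ 2 + n ^ 4) * p) * p ^ (2 * (n * m)) := Nat.mul_le_mul_right _ h2
        _ = _ := by ring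
    have h2 := h.trans h1
    rw [pow_two, ← mul_assoc] at h2
    exact Nat.le_of_mul_le_mul_right h2 hp.pos
  · rintro a ⟨ha, hnq⟩
    unfold GenQ at hnq
    rw [not_forall] at hnq
    obtain ⟨j, hnq⟩ := hnq
    rw [not_forall] at hnq
    obtain ⟨l, hnq⟩ := hnq
    rw [Classical.not_imp] at hnq
    obtain ⟨hjl, hnq⟩ := hnq
    rw [Classical.not_imp] at hnq
    obtain ⟨hej, hnq⟩ := hnq
    rw [Classical.not_imp] at hnq
    obtain ⟨hel, hnq⟩ := hnq
    rw [not_and_or] at hnq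
    rcases hnq with hnq | hnq
    · refine Set.mem_iUnion.mpr ⟨Sum.inl (j, l), hjl, ha, ?_⟩
      rw [sub_zero]
      exact lt_of_le_of_ne (hΘ1 a ha j l) hnq
    · simp only [not_forall] at hnq
      obtain ⟨i, k, hei, hek, μ, y, hy, hyq, z, hz⟩ := hnq
      have hy' := hy0u i k μ y hy hyq
      have hz' : ‖Θ a j l - z * y‖ < 1 := by
        refine lt_of_le_of_ne (sub_le' (hΘ1 a ha j l) ?_) hz
        rw [norm_mul, hy, mul_one]
        exact H16.ctb_norm_le_one hp hE z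
      have hpz : (0 : ℤ) < (p : ℤ) := by exact_mod_cast hp.pos
      have hr0 : 0 ≤ z % (p : ℤ) := Int.emod_nonneg _ hpz.ne'
      have hr1 : z % (p : ℤ) < p := Int.emod_lt_of_pos _ hpz
      have hr2 : (z % (p : ℤ)).toNat < p := by omega
      refine Set.mem_iUnion.mpr ⟨Sum.inr (((j, l), (i, k)), ⟨(z % (p : ℤ)).toNat, hr2⟩),
        hjl, ha, ?_⟩
      show ‖Θ a j l - (((z % (p : ℤ)).toNat : ℕ) : K) * y0 i k‖ < 1
      rw [← hy']
      have hr3 : ((((z % (p : ℤ)).toNat : ℕ) : ℤ) : K) = ((z % (p : ℤ) : ℤ) : K) := by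
        rw [Int.toNat_of_nonneg hr0]
      have hr4 : (z : K) = p * ((z / (p : ℤ) : ℤ) : K) + ((z % (p : ℤ) : ℤ) : K) := by
        have := Int.mul_ediv_add_emod z (p : ℤ)
        have h6 : ((p : ℤ) * (z / (p : ℤ)) + z % (p : ℤ) : ℤ) = z := this
        have h7 := congrArg (fun t : ℤ => (t : K)) h6
        push_cast at h7
        exact h7.symm
      have hr5 : Θ a j l - (((z % (p : ℤ)).toNat : ℕ) : K) * y =
          (Θ a j l - z * y) + p * ((z / (p : ℤ) : ℤ) : K) * y := by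
        have h8 : (((z % (p : ℤ)).toNat : ℕ) : K) = ((z % (p : ℤ) : ℤ) : K) := by
          rw [← hr3]
          push_cast
          rfl
        rw [h8, hr4]
        ring
      rw [hr5]
      refine add_lt' hz' ?_
      rw [norm_mul, norm_mul, hpn, hy, mul_one]
      have h9 := H16.ctb_norm_le_one hp hE (K := K) (z / (p : ℤ))
      exact (mul_le_of_le_one_right hpi0.le h9).trans_lt hpi1
  · rintro (⟨j, l⟩ | ⟨⟨⟨j, l⟩, ⟨i, k⟩⟩, r⟩)
    · exact hone j l 0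
    · exact hone j l _

end

end Pool.Agent.ZPK.H68
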