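import Pool.Agent.ZPK.StmtsG
import Pool.Agent.ZPK.StmtsL
import Pool.Agent.Helper68_ZPK.CFA

/-! Squad ZPK, row CNP: the exceptional matrices for finitely many branches. -/

set_option autoImplicit false

namespace Pool.Agent.ZPK.H68

open Pool.Agent.ZPT Pool.Agent.ZP3 Pool.Agent.ZPK

noncomputable section

theorem rs_mono1 (p n m : ℕ) (E F : Set (Fin n → Fin m → ℤ)) (h : E ⊆ F) (B : ℕ)
    (hF : (Rs p F).ncard * p ≤ B) : (Rs p E).ncard * p ≤ B := by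
  refine le_trans (Nat.mul_le_mul_right p (Set.ncard_le_ncard ?_ (H10.rs_finite p n m F))) hF
  rintro x ⟨hx, a, ha, hxa⟩
  exact ⟨hx, a, h ha, hxa⟩

theorem cnp_one (cnk : CnkStmt) (big : BigStmt) (lrg : LrgStmt) (unf : UnfStmt) (uuq : UuqStmt)
    (log : LogStmt) (kx : KXStmt) (n : ℕ) (bb : Fin n) (e : Fin n → ℕ)
    (f : Fin n → PowerSeries Qb) (hbr : Br bb e f) :
    ∃ p₀ C : ℕ, ∀ (p : ℕ) [Fact p.Prime], p₀ ≤ p → ∀ (m : ℕ) (β : Fin m → ℂ_[p]), Bas β →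
      (∀ r, Ur p (β r)) → ∀ (ι : Qb →+* ℂ_[p]) (ν : ℂ_[p]), Uu p ν →
      (Rs p {a : Fin n → Fin m → ℤ | ¬ ((∀ i, ‖sv β (a i)‖ = 1) ∧
        Di e (fun i => cf ι (f i)) (gv β ν a) ∧
        GnK p ℂ_[p] n e (fun i => cf ι (f i)) (gv β ν a))}).ncard * p ≤
        C * p ^ (2 * (n * m)) := by
  obtain ⟨E, pB, hB⟩ := big n bb e f hbr
  obtain ⟨S, pL, hS, hL⟩ := lrg n bb e f hbr
  obtain ⟨pU, hU⟩ := unf S
  refine ⟨max (max pB pL) (max pU 11),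
    n + n ^ 2 + 3 * (n * 25 ^ n) + n ^ 4 * E + (n ^ 2 + n ^ 4), ?_⟩
  intro p _ hp₀ m β hβ hUr ι ν hν
  have hp : p.Prime := Fact.out
  have hExt : Ext p ℂ_[p] := kx p
  have h1 : pB ≤ p := by omega
  have h2 : pL ≤ p := by omega
  have h3 : pU ≤ p := by omega
  have h4 : 11 ≤ p := by omega
  have hUnr := hU p hp h3 ℂ_[p] hExt ι
  have hbig := hB p hp h1 ℂ_[p] hExt ι _ hUnr (fun i k => ⟨_, hS i k, rfl⟩) (fun _ => 1)
    (fun i => ⟨one_mem _, norm_one⟩)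
  obtain ⟨Log, hLog⟩ := log p hp ℂ_[p] hExt
  obtain ⟨u₁, hu₁, huU⟩ : ∃ u₁ : ℂ_[p], ‖u₁‖ ≤ 1 ∧ ∀ U : PowerSeries ℚ, IsU U →
      ((PowerSeries.coeff 1 U : ℚ) : ℂ_[p]) = u₁ := by
    by_cases hex : ∃ U : PowerSeries ℚ, IsU U
    · obtain ⟨U, hUU⟩ := hex
      refine ⟨((PowerSeries.coeff 1 U : ℚ) : ℂ_[p]), ?_, fun U' hU' => ?_⟩
      · rw [hExt]
        exact_mod_cast hUU.pint p hp (by omega) 1
      · rw [uuq U' U hU' hUU]
    · exact ⟨0, by rw [norm_zero]; exact zero_le_one, fun U hUU => absurd ⟨U, hUU⟩ hex⟩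
  have hEp : E < p := by
    have := hbig.pl
    nlinarith
  have hc := cnk p hp h4 ℂ_[p] hExt Log hLog n m β hβ hUr ν hν u₁ e (fun i => cf ι (f i)) E hu₁
    hbig.zu hEp (fun i r => (hbig.cd i).An1 r) (fun i hi => (hbig.cd i).A0 hi)
  refine rs_mono1 p n m _ _ ?_ _ hc
  rintro a ha ⟨g1, g2, g3⟩
  refine ha ⟨g1, g2, Log, hLog, fun U hUU => ?_⟩
  rw [huU U hUU]
  exact g3

theorem cnp (cnk : CnkStmt) (big : BigStmt) (lrg : LrgStmt) (unf : UnfStmt) (uuq : UuqStmt)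
    (log : LogStmt) (ura : URAStmt) (urr : URRStmt) (kx : KXStmt) : CnpStmt := by
  classical
  intro n m N b bb e f hbr
  choose p1 C1 h1 using fun l => cnp_one cnk big lrg unf uuq log kx n (bb l) (e l) (f l) (hbr l)
  obtain ⟨pA, hA⟩ := ura (Finset.univ.image b)
  refine ⟨(∑ l, p1 l) + pA + 11, (N + 1) *
    ((n + n ^ 2 + 3 * (n * 25 ^ n) + n ^ 4 * 0 + (n ^ 2 + n ^ 4)) + ∑ l, C1 l), ?_⟩
  intro p _ hp₀ ι hβ z hz1 hz2
  have hp : p.Prime := Fact.out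
  have hExt : Ext p ℂ_[p] := kx p
  have hUr : ∀ r, Ur p (ι (b r)) := fun r =>
    (hA p hp (by omega) ℂ_[p] hExt ι (b r) (Finset.mem_image_of_mem _ (Finset.mem_univ r))).1
  obtain ⟨u1, u2, u3, u4, u5⟩ := urr p hp ℂ_[p] hExt
  obtain ⟨w, hw⟩ := hz1
  have hw0 : ¬ (p : ℤ) ∣ w := by
    rintro ⟨v, hv⟩
    exact hz2 ⟨v, by rw [hw, hv]; ring⟩
  have hwn : ‖(w : ℂ_[p])‖ = 1 := by
    have h5 := hExt (w : ℚ)
    have h6 : padicNorm p (w : ℚ) = 1 := (padicNorm.int_eq_one_iff w).mpr hw0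
    rw [h6] at h5
    simpa using h5
  have hν : Uu p ((w : ℂ_[p])⁻¹) := u5 _ ⟨u3 w, hwn⟩
  have hp0 : (p : ℂ_[p]) ≠ 0 := by exact_mod_cast hp.ne_zero
  have hwz : (w : ℂ_[p]) ≠ 0 := by
    intro h
    rw [h, norm_zero] at hwn
    exact zero_ne_one hwn
  have hgv : ∀ a : Fin n → Fin m → ℤ, (fun i => (p : ℂ_[p]) *
      ι ((∑ r, ((a i r : ℤ) : Qb) * b r) / (z : Qb))) =
      gv (fun r => ι (b r)) ((w : ℂ_[p])⁻¹) a := by
    intro a
    funext i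
    unfold gv sv
    rw [map_div₀, map_sum, map_intCast, hw]
    push_cast
    have h7 : (∑ r, ι (((a i r : ℤ) : Qb) * b r)) = ∑ r, ((a i r : ℤ) : ℂ_[p]) * ι (b r) := by
      refine Finset.sum_congr rfl fun r _ => ?_
      rw [map_mul, map_intCast]
    rw [h7]
    field_simp
  have hle : ∀ l, p1 l ≤ ∑ l, p1 l := fun l =>
    Finset.single_le_sum (f := p1) (fun _ _ => Nat.zero_le _) (Finset.mem_univ l)
  have hlC : ∀ l, C1 l ≤ ∑ l, C1 l := fun l =>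
    Finset.single_le_sum (f := C1) (fun _ _ => Nat.zero_le _) (Finset.mem_univ l)
  have hun := rs_union1 p n m (((n + n ^ 2 + 3 * (n * 25 ^ n) + n ^ 4 * 0 + (n ^ 2 + n ^ 4)) +
      ∑ l, C1 l) * p ^ (2 * (n * m)))
    {a : Fin n → Fin m → ℤ | ¬ ((∀ i, ‖sv (fun r => ι (b r)) (a i)‖ = 1) ∧
    ∀ l, GnK p ℂ_[p] n (e l) (fun i => cf ι (f l i))
        (fun i => (p : ℂ_[p]) * ι ((∑ r, ((a i r : ℤ) : Qb) * b r) / (z : Qb))) ∧
      Di (e l) (fun i => cf ι (f l i))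
        (fun i => (p : ℂ_[p]) * ι ((∑ r, ((a i r : ℤ) : Qb) * b r) / (z : Qb))))}
    (fun o : Option (Fin N) => o.elim
      {a : Fin n → Fin m → ℤ | ¬ ∀ i, ‖sv (fun r => ι (b r)) (a i)‖ = 1}
      (fun l => {a : Fin n → Fin m → ℤ | ¬ ((∀ i, ‖sv (fun r => ι (b r)) (a i)‖ = 1) ∧
        Di (e l) (fun i => cf ι (f l i)) (gv (fun r => ι (b r)) ((w : ℂ_[p])⁻¹) a) ∧
        GnK p ℂ_[p] n (e l) (fun i => cf ι (f l i))
          (gv (fun r => ι (b r)) ((w : ℂ_[p])⁻¹) a))})) ?_ ?_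
  · rw [Fintype.card_option, Fintype.card_fin, ← mul_assoc] at hun
    exact hun
  · intro a ha
    by_cases ha1 : ∀ i, ‖sv (fun r => ι (b r)) (a i)‖ = 1
    · have ha2 : ¬ ∀ l, GnK p ℂ_[p] n (e l) (fun i => cf ι (f l i))
          (gv (fun r => ι (b r)) ((w : ℂ_[p])⁻¹) a) ∧
          Di (e l) (fun i => cf ι (f l i)) (gv (fun r => ι (b r)) ((w : ℂ_[p])⁻¹) a) := by
        intro h
        apply ha
        refine ⟨ha1, fun l => ?_⟩
        rw [hgv a]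
        exact h l
      rw [not_forall] at ha2
      obtain ⟨l, hl⟩ := ha2
      exact Set.mem_iUnion.mpr ⟨some l, fun h => hl ⟨h.2.2, h.2.1⟩⟩
    · exact Set.mem_iUnion.mpr ⟨none, ha1⟩
  · rintro (_ | l)
    · obtain ⟨Log, hLog⟩ := log p hp ℂ_[p] hExt
      have hc := cnk p hp (by omega) ℂ_[p] hExt Log hLog n m (fun r => ι (b r)) hβ hUr
        ((w : ℂ_[p])⁻¹) hν 0 (fun _ => 0) (fun _ _ => 0) 0 (by rw [norm_zero]; exact zero_le_one)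
        ⟨fun _ => le_refl _, fun _ _ _ => Or.inl rfl⟩ hp.pos
        (fun _ _ => by rw [norm_zero]; exact zero_le_one) (fun _ h => absurd h (by omega))
      refine rs_mono1 p n m _ _ ?_ _ (hc.trans (Nat.mul_le_mul_right _ (Nat.le_add_right _ _)))
      intro a ha h
      exact ha h.1
    · exact (h1 l p (by have := hle l; omega) m (fun r => ι (b r)) hβ hUr ι _ hν).trans
        (Nat.mul_le_mul_right _ ((hlC l).trans (Nat.le_add_left _ _)))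

end

end Pool.Agent.ZPK.H68
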